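import Pool.Agent.L7h1.AS.Stm

/-!
# Project AS, part OFF: the terms off the diagonal
-/

set_option autoImplicit false

namespace Pool.Agent.L7h16.AS

open Finset Filter Pool.Agent.L7h1.AS

lemma large (C : ℕ) (ε : ℝ) (hε : 0 < ε) : ∃ X₀ : ℕ, ∀ N : ℕ, X₀ ≤ N → 1 ≤ Real.log N ∧
    (1 + ε) * Real.log N ^ (C + 4) ≤ N ∧ (Real.log N + 0.7) ^ 2 ≤ (1 + ε) * Real.log N ^ 2 := by
  have t0 : Tendsto (fun N : ℕ => (N : ℝ)) atTop atTop := tendsto_natCast_atTop_atTop
  have t1 : Tendsto (fun N : ℕ => Real.log (N : ℝ)) atTop atTop := Real.tendsto_log_atTop.comp t0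
  have t2 : ∀ᶠ x : ℝ in atTop, (1 + ε) * Real.log x ^ (C + 4) ≤ x := by
    have h := (Real.isLittleO_pow_log_id_atTop (n := C + 4)).bound (c := 1 / (1 + ε)) (by positivity)
    filter_upwards [h, eventually_gt_atTop 0] with x hx hx0
    rw [id, Real.norm_eq_abs, Real.norm_eq_abs, abs_of_pos hx0] at hx
    have h2 := le_trans (le_abs_self _) hx
    have h3 := mul_le_mul_of_nonneg_left h2 (by positivity : (0 : ℝ) ≤ 1 + ε)
    calc (1 + ε) * Real.log x ^ (C + 4) ≤ (1 + ε) * (1 / (1 + ε) * x) := h3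
      _ = x := by field_simp
  have ev := (t1.eventually_ge_atTop (1 + 2 / ε)).and (t0.eventually t2)
  obtain ⟨X₀, hX⟩ := eventually_atTop.1 ev
  refine ⟨X₀, fun N hN => ?_⟩
  obtain ⟨h1, h2⟩ := hX N hN
  have h3 : 0 < 2 / ε := by positivity
  have hy : 1 ≤ Real.log N := by linarith
  refine ⟨hy, h2, ?_⟩
  have h4 : 2 ≤ ε * Real.log N := by
    have : 2 / ε ≤ Real.log N := by linarith
    rw [div_le_iff₀ hε] at this
    linarith
  nlinarith

theorem s_OFF : S_OFF := by
  intro C ε hε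
  obtain ⟨X₀, hX⟩ := large C ε hε
  refine ⟨X₀, fun N hN a b hab ha hb => ?_⟩
  obtain ⟨h1, h2, h3⟩ := hX N hN
  obtain ⟨L, hL⟩ : ∃ L, L = Real.log (N : ℝ) := ⟨_, rfl⟩
  rw [← hL] at h1 h2 h3 ha hb ⊢
  have hL0 : 0 < L := by linarith
  obtain ⟨T, hT⟩ : ∃ T, T = max a b := ⟨_, rfl⟩
  have hTC : (T : ℝ) ≤ L ^ C := by
    rw [hT]
    rcases max_choice a b with h | h <;> rw [h] <;> assumption
  have hCN : L ^ C ≤ N := by
    have h4 : L ^ C ≤ L ^ (C + 4) := pow_le_pow_right₀ h1 (by omega)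
    have h5 : 0 < L ^ (C + 4) := by positivity
    nlinarith
  have hN0 : (0 : ℝ) < N := lt_of_lt_of_le (by positivity) hCN
  -- the logarithms
  have hlam : ∀ n ∈ Icc 1 N, ∀ x, x ≤ T → lam (n + x) ≤ if (n + x).Prime then L + 0.7 else 0 := by
    intro n hn x hx
    rw [mem_Icc] at hn
    unfold lam
    split_ifs with hp
    · have h4 : ((n + x : ℕ) : ℝ) ≤ 2 * N := by
        have e1 : ((n + x : ℕ) : ℝ) ≤ (N : ℝ) + T := by exact_mod_cast (by omega : n + x ≤ N + T)
        linarith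
      have h5 : (0 : ℝ) < ((n + x : ℕ) : ℝ) := by exact_mod_cast (by omega : 0 < n + x)
      have h6 := Real.log_le_log h5 h4
      rw [Real.log_mul (by norm_num) (by positivity), ← hL] at h6
      have h7 := Real.log_two_lt_d9
      linarith
    · exact le_rfl
  have hlam0 : ∀ n, 0 ≤ lam n := by
    intro n
    unfold lam
    split_ifs with hp
    · exact Real.log_nonneg (by exact_mod_cast hp.one_le)
    · exact le_rfl
  have hterm : ∀ n ∈ Icc 1 N, lam (n + a) * lam (n + b) ≤
      if (n + a).Prime ∧ (n + b).Prime then (L + 0.7) ^ 2 else 0 := by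
    intro n hn
    have g1 := hlam n hn a (by rw [hT]; exact le_max_left _ _)
    have g2 := hlam n hn b (by rw [hT]; exact le_max_right _ _)
    by_cases c1 : (n + a).Prime
    · by_cases c2 : (n + b).Prime
      · rw [if_pos c1] at g1
        rw [if_pos c2] at g2
        rw [if_pos ⟨c1, c2⟩, pow_two]
        exact mul_le_mul g1 g2 (hlam0 _) (by linarith)
      · rw [if_neg c2] at g2
        rw [if_neg (fun h => c2 h.2), le_antisymm g2 (hlam0 _), mul_zero]
    · rw [if_neg c1] at g1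
      rw [if_neg (fun h => c1 h.1), le_antisymm g1 (hlam0 _), zero_mul]
  have hsum : ∑ n ∈ Icc 1 N, lam (n + a) * lam (n + b) ≤
      (L + 0.7) ^ 2 * (((Icc 1 N).filter (fun n => (n + a).Prime ∧ (n + b).Prime)).card : ℝ) := by
    refine (sum_le_sum hterm).trans (le_of_eq ?_)
    rw [← sum_filter, sum_const, nsmul_eq_mul, mul_comm]
  have hcard : ((Icc 1 N).filter (fun n => (n + a).Prime ∧ (n + b).Prime)).card ≤ pi2 N (dst a b) + T := by
    have hinj : ((Icc 1 N).filter (fun n => (n + a).Prime ∧ (n + b).Prime)).card ≤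
        ((Icc 1 N).filter (fun p : ℕ => p.Prime ∧ (p - dst a b).Prime) ∪ Icc (N + 1) (N + T)).card := by
      refine card_le_card_of_injOn (fun n => n + T) ?_ (fun x _ y _ h => by
        have h' : x + T = y + T := h
        omega)
      intro n hn
      rw [mem_coe, mem_filter, mem_Icc] at hn
      obtain ⟨⟨g1, g2⟩, g3, g4⟩ := hn
      rw [mem_coe, mem_union, mem_filter, mem_Icc, mem_Icc]
      beta_reduce
      by_cases hle : n + T ≤ N
      · left
        refine ⟨⟨by omega, hle⟩, ?_⟩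
        unfold dst
        rcases le_total a b with h | h
        · have e1 : T = b := by rw [hT]; exact max_eq_right h
          have e2 : n + T - ((a - b) + (b - a)) = n + a := by omega
          rw [e2, e1]
          exact ⟨g4, g3⟩
        · have e1 : T = a := by rw [hT]; exact max_eq_left h
          have e2 : n + T - ((a - b) + (b - a)) = n + b := by omega
          rw [e2, e1]
          exact ⟨g3, g4⟩
      · right
        omega
    refine hinj.trans ((card_union_le _ _).trans ?_)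
    unfold pi2
    rw [Nat.card_Icc]
    omega
  have hcard' : (((Icc 1 N).filter (fun n => (n + a).Prime ∧ (n + b).Prime)).card : ℝ) ≤
      (pi2 N (dst a b) : ℝ) + T := by exact_mod_cast hcard
  have hfin : (1 + ε) * L ^ 2 * T ≤ N / L ^ 2 := by
    rw [le_div_iff₀ (by positivity)]
    calc (1 + ε) * L ^ 2 * T * L ^ 2 ≤ (1 + ε) * L ^ 2 * L ^ C * L ^ 2 := by gcongr
      _ = (1 + ε) * L ^ (C + 4) := by ring
      _ ≤ N := h2
  calc ∑ n ∈ Icc 1 N, lam (n + a) * lam (n + b)
      ≤ (L + 0.7) ^ 2 * ((pi2 N (dst a b) : ℝ) + T) := hsum.trans (mul_le_mul_of_nonneg_left hcard' (by positivity))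
    _ ≤ (1 + ε) * L ^ 2 * ((pi2 N (dst a b) : ℝ) + T) := mul_le_mul_of_nonneg_right h3 (by positivity)
    _ = (1 + ε) * L ^ 2 * pi2 N (dst a b) + (1 + ε) * L ^ 2 * T := by ring
    _ ≤ _ := by linarith

end Pool.Agent.L7h16.AS
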