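import Pool.Agent.L7h1.AS.Stm

/-!
# Project AS, part RES: the number of the classes modulo a primorial (Chinese remainder theorem)
-/

set_option autoImplicit false

namespace Pool.Agent.L7h16.AS

open Finset Pool.Agent.L7h1.AS

/-- the class modulo `q` with `q ∣ u + a` -/
lemma exists_class (q a : ℕ) (hq : 1 ≤ q) : ∃ u, u < q ∧ q ∣ u + a := by
  refine ⟨(q - a % q) % q, Nat.mod_lt _ hq, ?_⟩
  have h1 : a % q < q := Nat.mod_lt _ hq
  have h2 : (q - a % q) % q + a ≡ (q - a % q) + a [MOD q] := (Nat.mod_modEq _ _).add_right a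
  have h3 : (q - a % q) + a = q * (1 + a / q) := by
    have := Nat.div_add_mod a q
    have e : q * (1 + a / q) = q + q * (a / q) := by ring
    omega
  rw [h3] at h2
  exact (Nat.modEq_zero_iff_dvd).1 (h2.trans ((Nat.modEq_zero_iff_dvd).2 (Dvd.intro _ rfl)))

lemma unique_class {q a u v : ℕ} (hu : u < q) (hv : v < q) (h1 : q ∣ u + a) (h2 : q ∣ v + a) : u = v := by
  have h3 : u + a ≡ v + a [MOD q] :=
    ((Nat.modEq_zero_iff_dvd).2 h1).trans ((Nat.modEq_zero_iff_dvd).2 h2).symm
  exact (Nat.ModEq.add_right_cancel' a h3).eq_of_lt_of_lt hu hv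

lemma dvd_dst_iff (q u a b : ℕ) (h : q ∣ u + a) : q ∣ u + b ↔ q ∣ dst a b := by
  unfold dst
  rcases le_total a b with hab | hab
  · have e : (a - b) + (b - a) = b - a := by omega
    have e2 : u + b = (u + a) + (b - a) := by omega
    rw [e, e2]
    exact Nat.dvd_add_right h
  · have e : (a - b) + (b - a) = a - b := by omega
    have e2 : u + a = (u + b) + (a - b) := by omega
    rw [e]
    rw [e2] at h
    constructor
    · intro h1
      exact (Nat.dvd_add_right h1).1 h
    · intro h1
      exact (Nat.dvd_add_left h1).1 h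

/-- the classes modulo a prime -/
lemma card_prime {q : ℕ} (hq : q.Prime) (a b : ℕ) :
    (((range q).filter (fun r => (r + a).Coprime q ∧ (r + b).Coprime q)).card : ℝ) =
      (q : ℝ) - (if q ∣ dst a b then 1 else 2) := by
  obtain ⟨u, hu, hua⟩ := exists_class q a hq.one_le
  obtain ⟨v, hv, hvb⟩ := exists_class q b hq.one_le
  have hc : ∀ m : ℕ, m.Coprime q ↔ ¬ q ∣ m := fun m => by
    rw [Nat.coprime_comm]
    exact hq.coprime_iff_not_dvd
  have e : (range q).filter (fun r => (r + a).Coprime q ∧ (r + b).Coprime q) = range q \ {u, v} := by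
    ext r
    simp only [mem_filter, mem_range, mem_sdiff, mem_insert, mem_singleton, hc]
    constructor
    · rintro ⟨h1, h2, h3⟩
      refine ⟨h1, ?_⟩
      rintro (h | h)
      · exact h2 (h ▸ hua)
      · exact h3 (h ▸ hvb)
    · rintro ⟨h1, h2⟩
      refine ⟨h1, fun h => h2 (Or.inl (unique_class h1 hu h hua)), fun h => h2 (Or.inr (unique_class h1 hv h hvb))⟩
  have hsub : ({u, v} : Finset ℕ) ⊆ range q := by
    intro r hr
    simp only [mem_insert, mem_singleton] at hr
    rw [mem_range]
    rcases hr with h | h <;> omega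
  rw [e, card_sdiff_of_subset hsub, card_range]
  have hle : ({u, v} : Finset ℕ).card ≤ q := by
    have := card_le_card hsub
    rwa [card_range] at this
  rw [Nat.cast_sub hle]
  congr 1
  by_cases huv : u = v
  · have h : q ∣ dst a b := (dvd_dst_iff q u a b hua).1 (huv ▸ hvb)
    rw [if_pos h, huv]
    simp
  · have h : ¬ q ∣ dst a b := fun h =>
      huv (unique_class hu hv ((dvd_dst_iff q u a b hua).2 h) hvb)
    rw [if_neg h, card_pair huv]
    norm_num

/-- multiplicativity -/
lemma R_mul {q P : ℕ} (hq : 1 ≤ q) (hP : 1 ≤ P) (co : q.Coprime P) (a b : ℕ) :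
    R (q * P) a b = ((range q).filter (fun r => (r + a).Coprime q ∧ (r + b).Coprime q)).card * R P a b := by
  unfold R
  rw [← card_product]
  have hcong : ∀ (m r s x : ℕ), r ≡ s [MOD m] → ((r + x).Coprime m ↔ (s + x).Coprime m) := by
    intro m r s x h
    have h2 : r + x ≡ s + x [MOD m] := h.add_right x
    unfold Nat.Coprime
    rw [h2.gcd_eq]
  refine card_nbij' (fun r => (r % q, r % P)) (fun t => (Nat.chineseRemainder co t.1 t.2 : ℕ)) ?_ ?_ ?_ ?_
  · intro r hr
    simp only [coe_filter, mem_range, Set.mem_ofPred_eq] at hr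
    obtain ⟨h1, h2, h3⟩ := hr
    rw [Nat.coprime_mul_iff_right] at h2 h3
    simp only [coe_product, coe_filter, mem_range, Set.mem_prod, Set.mem_ofPred_eq]
    refine ⟨⟨Nat.mod_lt _ hq, ?_, ?_⟩, Nat.mod_lt _ hP, ?_, ?_⟩
    · exact (hcong q _ _ a (Nat.mod_modEq r q)).2 h2.1
    · exact (hcong q _ _ b (Nat.mod_modEq r q)).2 h3.1
    · exact (hcong P _ _ a (Nat.mod_modEq r P)).2 h2.2
    · exact (hcong P _ _ b (Nat.mod_modEq r P)).2 h3.2
  · rintro ⟨u, v⟩ ht
    simp only [coe_product, coe_filter, mem_range, Set.mem_prod, Set.mem_ofPred_eq] at ht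
    obtain ⟨⟨h1, h2, h3⟩, h4, h5, h6⟩ := ht
    have c1 := (Nat.chineseRemainder co u v).2.1
    have c2 := (Nat.chineseRemainder co u v).2.2
    simp only [coe_filter, mem_range, Set.mem_ofPred_eq]
    refine ⟨Nat.chineseRemainder_lt_mul co u v (by omega) (by omega), ?_, ?_⟩
    · rw [Nat.coprime_mul_iff_right]
      exact ⟨(hcong q _ _ a c1).2 h2, (hcong P _ _ a c2).2 h5⟩
    · rw [Nat.coprime_mul_iff_right]
      exact ⟨(hcong q _ _ b c1).2 h3, (hcong P _ _ b c2).2 h6⟩
  · intro r hr
    simp only [coe_filter, mem_range, Set.mem_ofPred_eq] at hr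
    have h := Nat.chineseRemainder_modEq_unique co (a := r % q) (b := r % P) (z := r)
      (Nat.mod_modEq r q).symm (Nat.mod_modEq r P).symm
    exact (h.eq_of_lt_of_lt hr.1 (Nat.chineseRemainder_lt_mul co _ _ (by omega) (by omega))).symm
  · rintro ⟨u, v⟩ ht
    simp only [coe_product, coe_filter, mem_range, Set.mem_prod, Set.mem_ofPred_eq] at ht
    have c1 := (Nat.chineseRemainder co u v).2.1
    have c2 := (Nat.chineseRemainder co u v).2.2
    refine Prod.ext ?_ ?_
    · exact Nat.mod_eq_of_modEq c1 ht.1.1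
    · exact Nat.mod_eq_of_modEq c2 ht.2.1

theorem s_RES : S_RES := by
  intro z a b
  unfold prodR
  induction z with
  | zero =>
    have e1 : (range (0 + 1)).filter Nat.Prime = ∅ := by
      ext p
      simp only [mem_filter, mem_range, notMem_empty, iff_false, not_and]
      intro h h2
      have := h2.two_le
      omega
    have e2 : primorial 0 = 1 := by
      unfold primorial
      rw [e1, prod_empty]
    rw [e1, e2, prod_empty]
    unfold R
    simp
  | succ z ih =>
    by_cases hp : (z + 1).Prime
    · have e1 : (range (z + 1 + 1)).filter Nat.Prime = insert (z + 1) ((range (z + 1)).filter Nat.Prime) := by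
        rw [range_add_one (n := z + 1), filter_insert, if_pos hp]
      have hn : z + 1 ∉ (range (z + 1)).filter Nat.Prime := by simp
      have e2 : primorial (z + 1) = (z + 1) * primorial z := by
        unfold primorial
        rw [e1, prod_insert hn]
      have hco : (z + 1).Coprime (primorial z) := by
        unfold primorial
        apply Nat.Coprime.prod_right
        intro p hp2
        rw [mem_filter, mem_range] at hp2
        rw [Nat.coprime_primes hp hp2.2]
        omega
      rw [e1, prod_insert hn, e2, R_mul hp.one_le (primorial_pos z) hco, Nat.cast_mul, ih, card_prime hp]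
    · have e1 : (range (z + 1 + 1)).filter Nat.Prime = (range (z + 1)).filter Nat.Prime := by
        rw [range_add_one (n := z + 1), filter_insert, if_neg hp]
      have e2 : primorial (z + 1) = primorial z := by
        unfold primorial
        rw [e1]
      rw [e1, e2, ih]

end Pool.Agent.L7h16.AS
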